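import Pool.Agent.W582.IW.StrD

/-! Project IW: strong convergence of the right hand sides (IW-STR). -/

set_option autoImplicit false

namespace Pool.Agent.W582.IW.Str

open MeasureTheory Set Filter Topology
open Pool.Agent.W488.IW

variable {H : Type} [NormedAddCommGroup H]

lemma contL2 {T : ℝ} {g : ℝ → H} (hg : ContinuousOn g (Icc 0 T)) :
    MemLp g 2 (volume.restrict (Icc 0 T)) := by
  rw [memLp_two_iff_integrable_sq_norm (hg.aestronglyMeasurable measurableSet_Icc)]
  exact (hg.norm.pow 2).integrableOn_Icc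

lemma sqBound {μ : Measure ℝ} {g : ℝ → H} {cl : ℝ → Idx → ℂ} (hg : AEStronglyMeasurable g μ)
    {C : ℝ} (hC : 0 ≤ C) (hd : Integrable (fun t => dd (cl t)) μ)
    (h : ∀ᵐ t ∂μ, ‖g t‖ ≤ C * Real.sqrt (dd (cl t))) : MemLp g 2 μ := by
  rw [memLp_two_iff_integrable_sq_norm hg]
  refine (hd.const_mul (C ^ 2)).mono' (hg.norm.pow 2) ?_
  filter_upwards [h] with t ht
  rw [Real.norm_of_nonneg (by positivity)]
  calc ‖g t‖ ^ 2 ≤ (C * Real.sqrt (dd (cl t))) ^ 2 := pow_le_pow_left₀ (norm_nonneg _) ht 2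
    _ = C ^ 2 * dd (cl t) := by rw [mul_pow, Real.sq_sqrt (dd_nonneg _)]

lemma sq_int {μ : Measure ℝ} {g : ℝ → H} (hg : MemLp g 2 μ) :
    Integrable (fun t => ‖g t‖ ^ 2) μ :=
  (memLp_two_iff_integrable_sq_norm hg.aestronglyMeasurable).1 hg

theorem main (_hEN : S_EN) (hLIM : S_LIM) (hLEQ : S_LEQ) : S_STR := by
  intro H _ _ _ D T c0 Nn cs cl hC
  obtain ⟨hSm, hI, hM, hA, hB⟩ := hLIM H D T c0 Nn cs cl hC
  have hE := hLEQ H D T c0 Nn cs cl hC
  obtain ⟨hT, hNn, hSol, hcl, -⟩ := hC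
  have hn := D.hn
  obtain ⟨μ, hμ⟩ : ∃ μ : Measure ℝ, μ = volume.restrict (Icc 0 T) := ⟨_, rfl⟩
  have hfin : IsFiniteMeasure μ := by rw [hμ]; infer_instance
  have hdd : Integrable (fun t => dd (cl t)) μ := by rw [hμ]; exact hI
  rw [← hμ] at hSm hM
  have hSm' : ∀ᵐ t ∂μ, Sm (cl t) := hSm
  have hc : ∀ j, ∀ k, ContinuousOn (fun t => cs j t k) (Icc 0 T) := fun j => sol_cont (hSol j)
  have hcc : ∀ j, ∀ k, ContinuousOn (fun t => cs j t k - cl t k) (Icc 0 T) :=
    fun j k => (hc j k).sub (hcl k)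
  have mka : AEStronglyMeasurable (fun t => smI D ka (cl t)) μ := hM ka ka_le
  have mkb : AEStronglyMeasurable (fun t => smI D kb (cl t)) μ := hM kb kb_le
  have mV : AEStronglyMeasurable (fun t => VI D (cl t)) μ :=
    Vf_meas D mka mkb (hM (fun k => ka k ^ 2) fun k => (kaa k).le)
      (hM (fun k => ka k * kb k) fun k => (kab k).le) (hM (fun k => kb k ^ 2) fun k => (kbb k).le)
  have LV : MemLp (fun t => VI D (cl t)) 2 μ := by
    refine sqBound mV (C := D.n + 2) (by linarith) hdd ?_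
    filter_upwards [hSm'] with t ht
    exact VI_norm D ht
  have LVN : ∀ j, MemLp (fun t => VN D (box (Nn j)) (cs j t)) 2 μ := by
    intro j
    rw [hμ]
    exact contL2 (VN_cont D _ (hc j))
  have Lx : ∀ j, MemLp (fun t => sm D (box (Nn j)) (fun k => ka k * kb k)
      (fun k => cs j t k - cl t k)) 2 μ := by
    intro j
    rw [hμ]
    exact contL2 (sm_cont D _ _ (hcc j))
  have LR : ∀ j, MemLp (fun t => Rm D (box (Nn j)) (cs j t) (cl t)) 2 μ := by
    intro j
    refine ((LVN j).sub LV).sub ?_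
    rw [hμ]
    exact contL2 (Vf_cont_on D (sm_cont D _ _ (hc j)) (sm_cont D _ _ (hc j))
      (sm_cont D _ _ (hcc j)) (sm_cont D _ _ (hcc j)) (sm_cont D _ _ (hcc j)))
  have La : ∀ j, MemLp (fun t => sm D (box (Nn j)) ka (cs j t) - smI D ka (cl t)) 2 μ := by
    intro j
    refine MemLp.sub ?_ ?_
    · rw [hμ]
      exact contL2 (sm_cont D _ _ (hc j))
    · refine sqBound mka (C := 1) (by norm_num) hdd ?_
      filter_upwards [hSm'] with t ht
      rw [one_mul]
      exact norm_smI D ht ka_le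
  have Lb : ∀ j, MemLp (fun t => sm D (box (Nn j)) kb (cs j t) - smI D kb (cl t)) 2 μ := by
    intro j
    refine MemLp.sub ?_ ?_
    · rw [hμ]
      exact contL2 (sm_cont D _ _ (hc j))
    · refine sqBound mkb (C := 1) (by norm_num) hdd ?_
      filter_upwards [hSm'] with t ht
      rw [one_mul]
      exact norm_smI D ht kb_le
  -- the subsequence
  let g : ℕ → ℝ → ℝ := fun j t => ‖sm D (box (Nn j)) ka (cs j t) - smI D ka (cl t)‖ ^ 2
    + ‖sm D (box (Nn j)) kb (cs j t) - smI D kb (cl t)‖ ^ 2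
  have hg0 : ∀ j t, 0 ≤ g j t := fun j t => by positivity
  have hgi : ∀ j, Integrable (g j) μ := fun j => (sq_int (La j)).add (sq_int (Lb j))
  have hgl : Tendsto (fun j => ∫ t, g j t ∂μ) atTop (𝓝 0) := by
    have h := hA.add hB
    rw [add_zero] at h
    refine h.congr fun j => ?_
    rw [← hμ, ← integral_add (sq_int (La j)) (sq_int (Lb j))]
  have hgn : Tendsto (fun j => eLpNorm (g j - 0) 1 μ) atTop (𝓝 0) := by
    have e : ∀ j, eLpNorm (g j - 0) 1 μ = ENNReal.ofReal (∫ t, g j t ∂μ) := by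
      intro j
      rw [sub_zero, eLpNorm_one_eq_lintegral_enorm, ← ofReal_integral_norm_eq_lintegral_enorm (hgi j)]
      congr 1
      exact integral_congr_ae (ae_of_all _ fun t => Real.norm_of_nonneg (hg0 j t))
    simp only [e]
    have := (ENNReal.continuous_ofReal.tendsto 0).comp hgl
    rw [ENNReal.ofReal_zero] at this
    exact this
  obtain ⟨ψ, hψ, hae⟩ := (tendstoInMeasure_of_tendsto_eLpNorm one_ne_zero
    (fun j => (hgi j).aestronglyMeasurable) aestronglyMeasurable_zero hgn).exists_seq_tendsto_ae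
  refine ⟨ψ, hψ, ?_⟩
  have hsq : ∀ (u v : ℕ → ℝ), (∀ i, 0 ≤ u i) → (∀ i, u i ^ 2 ≤ v i) → Tendsto v atTop (𝓝 0) →
      Tendsto u atTop (𝓝 0) := by
    intro u v hu huv hv
    have h1 := (Real.continuous_sqrt.tendsto 0).comp hv
    rw [Real.sqrt_zero] at h1
    exact squeeze_zero hu (fun i => Real.le_sqrt_of_sq_le (huv i)) h1
  have hR0 : Tendsto (fun i => ∫ t, ‖Rm D (box (Nn (ψ i))) (cs (ψ i) t) (cl t)‖ ^ 2 ∂μ) atTop
      (𝓝 0) := by
    have h := tendsto_integral_of_dominated_convergence (μ := μ)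
      (F := fun i t => ‖Rm D (box (Nn (ψ i))) (cs (ψ i) t) (cl t)‖ ^ 2) (f := fun _ => (0:ℝ))
      (fun t => (4 * (D.n + 2)) ^ 2 * dd (cl t))
      (fun i => (LR (ψ i)).aestronglyMeasurable.norm.pow 2) (hdd.const_mul _)
      (fun i => by
        filter_upwards [hSm'] with t ht
        rw [Real.norm_of_nonneg (by positivity)]
        calc ‖Rm D (box (Nn (ψ i))) (cs (ψ i) t) (cl t)‖ ^ 2
            ≤ (4 * (D.n + 2) * Real.sqrt (dd (cl t))) ^ 2 :=
              pow_le_pow_left₀ (norm_nonneg _) (Rm_norm D _ _ ht) 2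
          _ = (4 * (D.n + 2)) ^ 2 * dd (cl t) := by rw [mul_pow, Real.sq_sqrt (dd_nonneg _)])
      (by
        filter_upwards [hSm', hae] with t ht hgt
        have ha : Tendsto (fun i => sm D (box (Nn (ψ i))) ka (cs (ψ i) t)) atTop
            (𝓝 (smI D ka (cl t))) := by
          rw [tendsto_iff_norm_sub_tendsto_zero]
          refine hsq _ (fun i => g (ψ i) t) (fun i => norm_nonneg _) (fun i => ?_) hgt
          simp only [g]
          linarith [sq_nonneg ‖sm D (box (Nn (ψ i))) kb (cs (ψ i) t) - smI D kb (cl t)‖]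
        have hb : Tendsto (fun i => sm D (box (Nn (ψ i))) kb (cs (ψ i) t)) atTop
            (𝓝 (smI D kb (cl t))) := by
          rw [tendsto_iff_norm_sub_tendsto_zero]
          refine hsq _ (fun i => g (ψ i) t) (fun i => norm_nonneg _) (fun i => ?_) hgt
          simp only [g]
          linarith [sq_nonneg ‖sm D (box (Nn (ψ i))) ka (cs (ψ i) t) - smI D ka (cl t)‖]
        have h1 := Rm_tendsto D (hNn.comp hψ) (fun i => cs (ψ i) t) ht ha hb
        have h2 := (h1.norm).pow 2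
        simpa using h2)
    simpa using h
  have hδ : 0 < D.n - 2 := by linarith
  refine squeeze_zero (fun i => integral_nonneg fun t => by positivity) (fun i => ?_)
    (by simpa using hR0.const_mul (2 + 2 * (D.n + 2) ^ 2 / (D.n - 2) ^ 2))
  rw [← hμ]
  have LU : MemLp (fun t => VN D (box (Nn (ψ i))) (cs (ψ i) t) - VI D (cl t)) 2 μ :=
    (LVN (ψ i)).sub LV
  have hIi : Integrable (fun t => (inner ℂ (sm D (box (Nn (ψ i))) (fun k => ka k * kb k)
      (fun k => cs (ψ i) t k - cl t k))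
      (VN D (box (Nn (ψ i))) (cs (ψ i) t) - VI D (cl t)) : ℂ).re) μ := by
    refine ((sq_int (Lx (ψ i))).add (sq_int LU)).mono' ?_ (ae_of_all _ fun t => ?_)
    · exact Complex.continuous_re.comp_aestronglyMeasurable
        ((Lx (ψ i)).aestronglyMeasurable.inner LU.aestronglyMeasurable)
    · refine (Complex.abs_re_le_norm _).trans ((norm_inner_le_norm _ _).trans ?_)
      simp only [Pi.add_apply]
      nlinarith [sq_nonneg (‖sm D (box (Nn (ψ i))) (fun k => ka k * kb k)
        (fun k => cs (ψ i) t k - cl t k)‖ - ‖VN D (box (Nn (ψ i))) (cs (ψ i) t) - VI D (cl t)‖),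
        sq_nonneg (‖sm D (box (Nn (ψ i))) (fun k => ka k * kb k)
        (fun k => cs (ψ i) t k - cl t k)‖), sq_nonneg
        ‖VN D (box (Nn (ψ i))) (cs (ψ i) t) - VI D (cl t)‖]
  have hneg := neg_int D hT (hSol (ψ i)) hE (by
    have := LV.integrable one_le_two
    rw [hμ] at this
    exact this)
  rw [← hμ] at hneg
  have hA' := hIi.const_mul (4 * (D.n + 2) ^ 2 / (D.n - 2))
  have hB' := (sq_int (LR (ψ i))).const_mul (2 + 2 * (D.n + 2) ^ 2 / (D.n - 2) ^ 2)
  have h1 := integral_mono (μ := μ) (sq_int LU) (hA'.add hB')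
    (fun t => key_pt D (box (Nn (ψ i))) (cs (ψ i) t) (cl t))
  refine h1.trans ?_
  rw [integral_add' hA' hB', integral_const_mul, integral_const_mul]
  have h3 : 4 * (D.n + 2) ^ 2 / (D.n - 2) * ∫ t, (inner ℂ (sm D (box (Nn (ψ i)))
        (fun k => ka k * kb k) (fun k => cs (ψ i) t k - cl t k))
        (VN D (box (Nn (ψ i))) (cs (ψ i) t) - VI D (cl t)) : ℂ).re ∂μ ≤ 0 :=
    mul_nonpos_of_nonneg_of_nonpos (by positivity) hneg
  linarith

end Pool.Agent.W582.IW.Str
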