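import Pool.Agent.W488.IW.Stm

/-! Project IW: auxiliary facts for the strong convergence of Galerkin solutions. -/

set_option autoImplicit false

namespace Pool.Agent.W582.IW.Str

open MeasureTheory Set Filter Topology
open Pool.Agent.W488.IW

/-! ### a product rule -/

lemma sqR {f : ℝ → ℝ} {T : ℝ} (hf : IntervalIntegrable f volume 0 T) :
    2 * ∫ t in (0:ℝ)..T, (∫ s in (0:ℝ)..t, f s) * f t = (∫ s in (0:ℝ)..T, f s) ^ 2 := by
  set w : ℝ → ℝ := fun t => ∫ s in (0:ℝ)..t, f s with hw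
  have hac : AbsolutelyContinuousOnInterval w 0 T :=
    hf.absolutelyContinuousOnInterval_intervalIntegral (c := 0) (by simp)
  have h1 := hac.integral_deriv_mul_eq_sub hac
  have h2 : ∫ x in (0:ℝ)..T, deriv w x * w x + w x * deriv w x
      = ∫ x in (0:ℝ)..T, 2 * (w x * f x) := by
    apply intervalIntegral.integral_congr_ae
    filter_upwards [hf.ae_hasDerivAt_integral] with x hx hx'
    have := hx (uIoc_subset_uIcc hx') 0 (by simp)
    rw [this.deriv]
    ring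
  rw [h2, intervalIntegral.integral_const_mul] at h1
  rw [h1]
  simp only [hw, intervalIntegral.integral_same]
  ring

lemma pos {f : ℝ → ℂ} {T : ℝ} (hf : IntervalIntegrable f volume 0 T) :
    0 ≤ ∫ t in (0:ℝ)..T, ((starRingEnd ℂ) (∫ s in (0:ℝ)..t, f s) * f t).re := by
  have hre : IntervalIntegrable (fun t => (f t).re) volume 0 T :=
    ⟨Complex.reCLM.integrable_comp hf.1, Complex.reCLM.integrable_comp hf.2⟩
  have him : IntervalIntegrable (fun t => (f t).im) volume 0 T :=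
    ⟨Complex.imCLM.integrable_comp hf.1, Complex.imCLM.integrable_comp hf.2⟩
  have hsub : ∀ t ∈ uIcc (0:ℝ) T, IntervalIntegrable f volume 0 t := by
    intro t ht
    exact hf.mono_set (uIcc_subset_uIcc_left ht)
  have e : ∀ t ∈ uIcc (0:ℝ) T, ((starRingEnd ℂ) (∫ s in (0:ℝ)..t, f s) * f t).re
      = (∫ s in (0:ℝ)..t, (f s).re) * (f t).re + (∫ s in (0:ℝ)..t, (f s).im) * (f t).im := by
    intro t ht
    have h1 : (∫ s in (0:ℝ)..t, (f s).re) = (∫ s in (0:ℝ)..t, f s).re :=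
      Complex.reCLM.intervalIntegral_comp_comm (hsub t ht)
    have h2 : (∫ s in (0:ℝ)..t, (f s).im) = (∫ s in (0:ℝ)..t, f s).im :=
      Complex.imCLM.intervalIntegral_comp_comm (hsub t ht)
    rw [h1, h2, Complex.mul_re, Complex.conj_re, Complex.conj_im]
    ring
  rw [intervalIntegral.integral_congr e, intervalIntegral.integral_add]
  · have h1 := sqR hre
    have h2 := sqR him
    nlinarith [sq_nonneg (∫ s in (0:ℝ)..T, (f s).re), sq_nonneg (∫ s in (0:ℝ)..T, (f s).im)]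
  · exact hre.continuousOn_mul
      (hre.absolutelyContinuousOnInterval_intervalIntegral (c := 0) (by simp)).continuousOn
  · exact him.continuousOn_mul
      (him.absolutelyContinuousOnInterval_intervalIntegral (c := 0) (by simp)).continuousOn

/-! ### Hilbert space facts -/

section
variable {H : Type} [NormedAddCommGroup H] [InnerProductSpace ℂ H] [CompleteSpace H]

lemma norm_sq_fin (D : Dat H) (Λ : Finset Idx) (a : Idx → ℂ) :
    ‖∑ k ∈ Λ, a k • D.e k‖ ^ 2 = ∑ k ∈ Λ, ‖a k‖ ^ 2 := by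
  have h := D.e.orthonormal.inner_sum a a Λ
  rw [inner_self_eq_norm_sq_to_K] at h
  have h2 : ∀ k, (starRingEnd ℂ) (a k) * a k = ((‖a k‖ ^ 2 : ℝ) : ℂ) := by
    intro k
    rw [mul_comm, Complex.mul_conj, Complex.normSq_eq_norm_sq]
  simp only [h2] at h
  apply Complex.ofReal_injective
  simpa using h

lemma tsum_facts (D : Dat H) (a : Idx → ℂ) (ha : Summable fun k => ‖a k‖ ^ 2) :
    (∀ k, inner ℂ (D.e k : H) (∑' i, a i • D.e i) = a k) ∧
      ‖∑' i, a i • D.e i‖ ^ 2 = ∑' k, ‖a k‖ ^ 2 := by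
  have hm : Memℓp a 2 := by
    rw [memℓp_gen_iff (by norm_num)]
    simpa using ha
  let f : lp (fun _ : Idx => ℂ) 2 := ⟨a, hm⟩
  have h1 : ∑' i, a i • D.e i = D.e.repr.symm f := (D.e.hasSum_repr_symm f).tsum_eq
  constructor
  · intro k
    rw [h1, ← HilbertBasis.repr_apply_apply, LinearIsometryEquiv.apply_symm_apply]
  · rw [h1, LinearIsometryEquiv.norm_map]
    have := lp.norm_rpow_eq_tsum (p := 2) (by norm_num) f
    simpa using this

lemma ka_sq (k : Idx) : ‖ka k‖ ^ 2 = m2 k := by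
  unfold ka m2
  rw [norm_mul, norm_mul, mul_pow, mul_pow]
  have h1 : ‖((k.1 : ℂ) - k.2 * Complex.I)‖ ^ 2 = (k.1 : ℝ) ^ 2 + (k.2 : ℝ) ^ 2 := by
    rw [← Complex.normSq_eq_norm_sq, Complex.normSq_apply]
    simp
    ring
  rw [h1]
  simp

lemma kb_sq (k : Idx) : ‖kb k‖ ^ 2 = m2 k := by
  unfold kb m2
  rw [norm_mul, norm_mul, mul_pow, mul_pow]
  have h1 : ‖((k.1 : ℂ) + k.2 * Complex.I)‖ ^ 2 = (k.1 : ℝ) ^ 2 + (k.2 : ℝ) ^ 2 := by
    rw [← Complex.normSq_eq_norm_sq, Complex.normSq_apply]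
    simp
    ring
  rw [h1]
  simp

lemma m2_nonneg (k : Idx) : 0 ≤ m2 k := by
  rw [← ka_sq]; positivity

lemma ka_kb (k : Idx) : ka k * kb k = -((m2 k : ℝ) : ℂ) := by
  unfold ka kb m2
  push_cast
  ring_nf
  rw [Complex.I_sq, show Complex.I ^ 4 = 1 by rw [show 4 = 2 * 2 by norm_num, pow_mul, Complex.I_sq]; norm_num]
  ring

lemma m2_dich (k : Idx) : m2 k = 0 ∨ 1 ≤ m2 k := by
  by_cases h : k.1 = 0 ∧ k.2 = 0
  · left; simp [m2, h.1, h.2]
  · right
    have h1 : (1 : ℝ) ≤ (k.1 : ℝ) ^ 2 + (k.2 : ℝ) ^ 2 := by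
      have : 1 ≤ k.1 ^ 2 + k.2 ^ 2 := by
        by_contra hc
        apply h
        have h3 : k.1 ^ 2 = 0 := by nlinarith [sq_nonneg k.1, sq_nonneg k.2]
        have h4 : k.2 ^ 2 = 0 := by nlinarith [sq_nonneg k.1, sq_nonneg k.2]
        exact ⟨by simpa using h3, by simpa using h4⟩
      exact_mod_cast this
    unfold m2
    have h2 : (1:ℝ) ≤ Real.pi ^ 2 := by nlinarith [Real.pi_gt_three]
    nlinarith

lemma m2_le_sq (k : Idx) : m2 k ≤ m2 k ^ 2 := by
  rcases m2_dich k with h | h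
  · rw [h]; norm_num
  · nlinarith

lemma ka_le (k : Idx) : ‖ka k‖ ≤ m2 k := by
  have := ka_sq k
  apply le_of_sq_le_sq _ (m2_nonneg k)
  rw [this]; exact m2_le_sq k

lemma kb_le (k : Idx) : ‖kb k‖ ≤ m2 k := by
  have := kb_sq k
  apply le_of_sq_le_sq _ (m2_nonneg k)
  rw [this]; exact m2_le_sq k

lemma kaa (k : Idx) : ‖ka k ^ 2‖ = m2 k := by rw [norm_pow, ka_sq]
lemma kbb (k : Idx) : ‖kb k ^ 2‖ = m2 k := by rw [norm_pow, kb_sq]
lemma kab (k : Idx) : ‖ka k * kb k‖ = m2 k := by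
  rw [ka_kb, norm_neg, Complex.norm_real, Real.norm_of_nonneg (m2_nonneg k)]

end

end Pool.Agent.W582.IW.Str
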