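import Pool.Agent.W582.IW.StrA

/-! Project IW: pointwise facts for the strong convergence of Galerkin solutions. -/

set_option autoImplicit false

namespace Pool.Agent.W582.IW.Str

open MeasureTheory Set Filter Topology
open Pool.Agent.W488.IW

variable {H : Type} [NormedAddCommGroup H] [InnerProductSpace ℂ H] [CompleteSpace H]

/-- summability of the second derivatives -/
def Sm (c : Idx → ℂ) : Prop := Summable fun k => m2 k ^ 2 * ‖c k‖ ^ 2

/-- the squared norm of the second derivatives -/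
noncomputable def dd (c : Idx → ℂ) : ℝ := ∑' k, m2 k ^ 2 * ‖c k‖ ^ 2

lemma dd_nonneg (c : Idx → ℂ) : 0 ≤ dd c := tsum_nonneg fun k => by positivity

lemma Sm.w {c : Idx → ℂ} (hc : Sm c) {w : Idx → ℂ} (hw : ∀ k, ‖w k‖ ≤ m2 k) :
    Summable fun k => ‖w k * c k‖ ^ 2 := by
  refine Summable.of_nonneg_of_le (fun k => by positivity) (fun k => ?_) hc
  rw [norm_mul, mul_pow]
  exact mul_le_mul_of_nonneg_right (pow_le_pow_left₀ (norm_nonneg _) (hw k) 2) (by positivity)

lemma inner_smI (D : Dat H) {c w : Idx → ℂ} (hc : Sm c) (hw : ∀ k, ‖w k‖ ≤ m2 k) (k : Idx) :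
    inner ℂ (D.e k : H) (smI D w c) = w k * c k :=
  (tsum_facts D (fun k => w k * c k) (hc.w hw)).1 k

lemma norm_smI (D : Dat H) {c w : Idx → ℂ} (hc : Sm c) (hw : ∀ k, ‖w k‖ ≤ m2 k) :
    ‖smI D w c‖ ≤ Real.sqrt (dd c) := by
  apply Real.le_sqrt_of_sq_le
  have h := (tsum_facts D (fun k => w k * c k) (hc.w hw)).2
  rw [smI, h]
  refine (hc.w hw).tsum_le_tsum (fun k => ?_) hc
  rw [norm_mul, mul_pow]
  exact mul_le_mul_of_nonneg_right (pow_le_pow_left₀ (norm_nonneg _) (hw k) 2) (by positivity)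

lemma sm_sub (D : Dat H) (Λ : Finset Idx) (w c c' : Idx → ℂ) :
    sm D Λ w c - sm D Λ w c' = sm D Λ w (fun k => c k - c' k) := by
  unfold sm
  rw [← Finset.sum_sub_distrib]
  refine Finset.sum_congr rfl fun k _ => ?_
  rw [← sub_smul, mul_sub]

lemma pr_smI (D : Dat H) {c w : Idx → ℂ} (hc : Sm c) (hw : ∀ k, ‖w k‖ ≤ m2 k) (Λ : Finset Idx) :
    pr D Λ (smI D w c) = sm D Λ w c := by
  unfold pr sm
  exact Finset.sum_congr rfl fun k _ => by rw [inner_smI D hc hw]

lemma norm_sm (D : Dat H) (Λ : Finset Idx) {w : Idx → ℂ} (c : Idx → ℂ) (hw : ∀ k, ‖w k‖ = m2 k) :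
    ‖sm D Λ w c‖ = Real.sqrt (∑ k ∈ Λ, m2 k ^ 2 * ‖c k‖ ^ 2) := by
  rw [eq_comm, Real.sqrt_eq_iff_mul_self_eq (Finset.sum_nonneg fun k _ => by positivity)
    (norm_nonneg _), ← pow_two, sm, norm_sq_fin D Λ (fun k => w k * c k)]
  exact Finset.sum_congr rfl fun k _ => by rw [norm_mul, mul_pow, hw]

lemma norm_pr (D : Dat H) (Λ : Finset Idx) (v : H) : ‖pr D Λ v‖ ≤ ‖v‖ := by
  apply le_of_sq_le_sq _ (norm_nonneg _)
  rw [pr, norm_sq_fin D Λ (fun k => inner ℂ (D.e k : H) v)]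
  exact D.e.orthonormal.sum_inner_products_le v

lemma norm_pr_sub (D : Dat H) (Λ : Finset Idx) (v : H) : ‖pr D Λ v - v‖ ≤ 2 * ‖v‖ := by
  have h1 := norm_sub_le (pr D Λ v) v
  have h2 := norm_pr D Λ v
  linarith

lemma tendsto_box {Nn : ℕ → ℕ} (hN : StrictMono Nn) :
    Tendsto (fun j => box (Nn j)) atTop (atTop : Filter (Finset Idx)) := by
  have hm : Monotone (fun j => box (Nn j)) := by
    intro i j hij
    have h : Nn i ≤ Nn j := hN.monotone hij
    have h' : ((Nn i : ℕ) : ℤ) ≤ Nn j := by exact_mod_cast h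
    intro k hk
    simp only [box, Finset.mem_product, Finset.mem_Icc] at hk ⊢
    omega
  refine tendsto_atTop_finset_of_monotone hm ?_
  intro k
  refine ⟨k.1.natAbs + k.2.natAbs, ?_⟩
  have h := hN.id_le (k.1.natAbs + k.2.natAbs)
  simp only [id] at h
  simp only [box, Finset.mem_product, Finset.mem_Icc]
  have h' : ((k.1.natAbs + k.2.natAbs : ℕ) : ℤ) ≤ Nn (k.1.natAbs + k.2.natAbs) := by exact_mod_cast h
  omega

lemma tendsto_pr (D : Dat H) {Nn : ℕ → ℕ} (hN : StrictMono Nn) (v : H) :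
    Tendsto (fun j => pr D (box (Nn j)) v) atTop (𝓝 v) := by
  have h : HasSum (fun i => inner ℂ (D.e i : H) v • (D.e i : H)) v := by
    have := D.e.hasSum_repr v
    simpa [HilbertBasis.repr_apply_apply] using this
  have h' : Tendsto (fun s : Finset Idx => ∑ i ∈ s, inner ℂ (D.e i : H) v • (D.e i : H)) atTop
      (𝓝 v) := by
    have h2 := h
    rw [HasSum, SummationFilter.unconditional_filter] at h2
    exact h2
  exact h'.comp (tendsto_box hN)

/-! ### continuity of the coefficients -/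

lemma op_cont (D : Dat H) (S : H → H → H →L[ℂ] H) (L : ℝ) (h1 : ∀ a b, ‖S a b‖ ≤ 1)
    (h2 : ∀ a b a' b' k, ‖S a b (D.e k) - S a' b' (D.e k)‖ ≤ L * (‖a - a'‖ + ‖b - b'‖)) :
    Continuous (fun z : (H × H) × H => S z.1.1 z.1.2 z.2) := by
  have hle : ∀ a b (x : H), ‖S a b x‖ ≤ ‖x‖ := by
    intro a b x
    refine ((S a b).le_opNorm x).trans ?_
    nlinarith [h1 a b, norm_nonneg x]
  have hx : ∀ x : H, Continuous (fun z : H × H => S z.1 z.2 x) := by
    let C : Submodule ℂ H :=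
      { carrier := {x | Continuous (fun z : H × H => S z.1 z.2 x)}
        add_mem' := by
          intro x y hx hy
          simp only [mem_ofPred_eq, map_add] at *
          exact hx.add hy
        zero_mem' := by
          simp only [mem_ofPred_eq, map_zero]
          exact continuous_const
        smul_mem' := by
          intro c x hx
          simp only [mem_ofPred_eq, map_smul] at *
          exact hx.const_smul c }
    have hCe : ∀ k, (D.e k : H) ∈ C := by
      intro k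
      change Continuous (fun z : H × H => S z.1 z.2 (D.e k))
      rw [continuous_iff_continuousAt]
      intro z0
      rw [ContinuousAt, tendsto_iff_norm_sub_tendsto_zero]
      refine squeeze_zero (fun _ => norm_nonneg _) (fun z => h2 z.1 z.2 z0.1 z0.2 k) ?_
      have : Continuous fun z : H × H => L * (‖z.1 - z0.1‖ + ‖z.2 - z0.2‖) := by fun_prop
      have h := this.tendsto z0
      simpa using h
    have hcl : IsClosed (C : Set H) := by
      rw [← closure_subset_iff_isClosed]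
      intro x hx
      change Continuous (fun z : H × H => S z.1 z.2 x)
      refine continuous_of_uniform_approx_of_continuous fun u hu => ?_
      obtain ⟨ε, hε, hu'⟩ := Metric.mem_uniformity_dist.1 hu
      obtain ⟨y, hy, hxy⟩ := Metric.mem_closure_iff.1 hx ε hε
      refine ⟨fun z : H × H => S z.1 z.2 y, hy, fun z => hu' ?_⟩
      rw [dist_eq_norm, ← map_sub]
      refine (hle _ _ _).trans_lt ?_
      rwa [← dist_eq_norm]
    have htop : C = ⊤ := by
      rw [eq_top_iff, ← D.e.dense_span]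
      refine Submodule.topologicalClosure_minimal _ ?_ hcl
      rw [Submodule.span_le]
      rintro _ ⟨k, rfl⟩
      exact hCe k
    intro x
    have : x ∈ C := by rw [htop]; trivial
    exact this
  rw [continuous_iff_continuousAt]
  rintro ⟨z0, x0⟩
  rw [ContinuousAt, tendsto_iff_norm_sub_tendsto_zero]
  have hb : ∀ z : (H × H) × H, ‖S z.1.1 z.1.2 z.2 - S z0.1 z0.2 x0‖
      ≤ ‖z.2 - x0‖ + ‖S z.1.1 z.1.2 x0 - S z0.1 z0.2 x0‖ := by
    intro z
    have e : S z.1.1 z.1.2 z.2 - S z0.1 z0.2 x0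
        = S z.1.1 z.1.2 (z.2 - x0) + (S z.1.1 z.1.2 x0 - S z0.1 z0.2 x0) := by
      rw [map_sub]; abel
    rw [e]
    refine (norm_add_le _ _).trans ?_
    gcongr
    exact hle _ _ _
  refine squeeze_zero (fun _ => norm_nonneg _) hb ?_
  have hcont : Continuous fun z : (H × H) × H =>
      ‖z.2 - x0‖ + ‖S z.1.1 z.1.2 x0 - S z0.1 z0.2 x0‖ := by
    have h3 : Continuous fun z : (H × H) × H => S z.1.1 z.1.2 x0 := (hx x0).comp continuous_fst
    fun_prop
  have h := hcont.tendsto (z0, x0)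
  simpa using h

lemma s_cont (D : Dat H) : Continuous (fun z : (H × H) × H => D.s z.1.1 z.1.2 z.2) :=
  op_cont D D.s D.L D.h1 D.h2

lemma sa_cont (D : Dat H) :
    Continuous (fun z : (H × H) × H => (D.s z.1.1 z.1.2).adjoint z.2) := by
  refine op_cont D (fun a b => (D.s a b).adjoint) D.L (fun a b => ?_) D.h3
  rw [LinearIsometryEquiv.norm_map]
  exact D.h1 a b

lemma s_le (D : Dat H) (a b x : H) : ‖D.s a b x‖ ≤ ‖x‖ := by
  refine ((D.s a b).le_opNorm x).trans ?_
  nlinarith [D.h1 a b, norm_nonneg x]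

lemma sa_le (D : Dat H) (a b x : H) : ‖(D.s a b).adjoint x‖ ≤ ‖x‖ := by
  refine ((D.s a b).adjoint.le_opNorm x).trans ?_
  rw [LinearIsometryEquiv.norm_map]
  nlinarith [D.h1 a b, norm_nonneg x]

/-- the arguments of `Vf` -/
abbrev Arg (H : Type) := (H × H) × (H × H × H)

lemma Vf_cont (D : Dat H) :
    Continuous (fun z : Arg H => Vf D z.1.1 z.1.2 z.2.1 z.2.2.1 z.2.2.2) := by
  unfold Vf
  refine Continuous.add (Continuous.add (by fun_prop) ?_) ?_
  · exact (s_cont D).comp (f := fun z : Arg H => (z.1, z.2.1)) (by fun_prop)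
  · exact (sa_cont D).comp (f := fun z : Arg H => (z.1, z.2.2.2)) (by fun_prop)

lemma Vf_norm (D : Dat H) (a b p q r : H) : ‖Vf D a b p q r‖ ≤ D.n * ‖q‖ + ‖p‖ + ‖r‖ := by
  unfold Vf
  refine (norm_add₃_le).trans ?_
  have h1 : ‖(D.n : ℂ) • q‖ = D.n * ‖q‖ := by
    rw [norm_smul, Complex.norm_real, Real.norm_of_nonneg (by linarith [D.hn])]
  rw [h1]
  have h2 := s_le D a b p
  have h3 := sa_le D a b r
  linarith

lemma Vf_sub (D : Dat H) (a b p q r p' q' r' : H) :
    Vf D a b p q r - Vf D a b p' q' r' = Vf D a b (p - p') (q - q') (r - r') := by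
  unfold Vf
  rw [map_sub, map_sub, smul_sub]
  abel

lemma Vf_add (D : Dat H) (a b p q r p' q' r' : H) :
    Vf D a b p q r + Vf D a b p' q' r' = Vf D a b (p + p') (q + q') (r + r') := by
  unfold Vf
  rw [map_add, map_add, smul_add]
  abel

lemma coer (D : Dat H) (a b x y z : H) (hy : ‖y‖ = ‖x‖) (hz : ‖z‖ = ‖x‖) :
    (D.n - 2) * ‖x‖ ^ 2 ≤ (inner ℂ x (Vf D a b y x z)).re := by
  unfold Vf
  rw [inner_add_right, inner_add_right, inner_smul_right, Complex.add_re, Complex.add_re]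
  have h1 : ((D.n : ℂ) * inner ℂ x x).re = D.n * ‖x‖ ^ 2 := by
    rw [inner_self_eq_norm_sq_to_K]
    have : ((‖x‖ : ℂ) ^ 2) = ((‖x‖ ^ 2 : ℝ) : ℂ) := by push_cast; rfl
    change ((D.n : ℂ) * ((‖x‖ : ℂ) ^ 2)).re = _
    rw [this, ← Complex.ofReal_mul, Complex.ofReal_re]
  have h2 : -(‖x‖ * ‖x‖) ≤ (inner ℂ x (D.s a b y)).re := by
    have h3 := Complex.abs_re_le_norm (inner ℂ x (D.s a b y))
    have h4 := norm_inner_le_norm (𝕜 := ℂ) x (D.s a b y)
    have h5 := s_le D a b y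
    have h6 := neg_abs_le (inner ℂ x (D.s a b y)).re
    have h7 : ‖x‖ * ‖D.s a b y‖ ≤ ‖x‖ * ‖x‖ :=
      mul_le_mul_of_nonneg_left (h5.trans hy.le) (norm_nonneg _)
    linarith
  have h2' : -(‖x‖ * ‖x‖) ≤ (inner ℂ x ((D.s a b).adjoint z)).re := by
    have h3 := Complex.abs_re_le_norm (inner ℂ x ((D.s a b).adjoint z))
    have h4 := norm_inner_le_norm (𝕜 := ℂ) x ((D.s a b).adjoint z)
    have h5 := sa_le D a b z
    have h6 := neg_abs_le (inner ℂ x ((D.s a b).adjoint z)).re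
    have h7 : ‖x‖ * ‖(D.s a b).adjoint z‖ ≤ ‖x‖ * ‖x‖ :=
      mul_le_mul_of_nonneg_left (h5.trans hz.le) (norm_nonneg _)
    linarith
  rw [h1]
  nlinarith

end Pool.Agent.W582.IW.Str
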