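import Pool.Agent.W582.IW.StrC

/-! Project IW: the energy inequality for the difference, integrated in time. -/

set_option autoImplicit false

namespace Pool.Agent.W582.IW.Str

open MeasureTheory Set Filter Topology
open Pool.Agent.W488.IW

variable {H : Type} [NormedAddCommGroup H] [InnerProductSpace ℂ H] [CompleteSpace H]

lemma sm_cont (D : Dat H) (Λ : Finset Idx) (w : Idx → ℂ) {s : Set ℝ} {c : ℝ → Idx → ℂ}
    (hc : ∀ k, ContinuousOn (fun t => c t k) s) : ContinuousOn (fun t => sm D Λ w (c t)) s := by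
  unfold sm
  refine continuousOn_finsetSum _ fun k _ => ?_
  exact ((continuousOn_const.mul (hc k))).smul continuousOn_const

lemma Vf_cont_on (D : Dat H) {s : Set ℝ} {a b p q r : ℝ → H} (ha : ContinuousOn a s)
    (hb : ContinuousOn b s) (hp : ContinuousOn p s) (hq : ContinuousOn q s)
    (hr : ContinuousOn r s) : ContinuousOn (fun t => Vf D (a t) (b t) (p t) (q t) (r t)) s :=
  (Vf_cont D).comp_continuousOn ((ha.prodMk hb).prodMk (hp.prodMk (hq.prodMk hr)))

lemma Vf_meas (D : Dat H) {μ : Measure ℝ} {a b p q r : ℝ → H} (ha : AEStronglyMeasurable a μ)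
    (hb : AEStronglyMeasurable b μ) (hp : AEStronglyMeasurable p μ)
    (hq : AEStronglyMeasurable q μ) (hr : AEStronglyMeasurable r μ) :
    AEStronglyMeasurable (fun t => Vf D (a t) (b t) (p t) (q t) (r t)) μ :=
  (Vf_cont D).comp_aestronglyMeasurable ((ha.prodMk hb).prodMk (hp.prodMk (hq.prodMk hr)))

lemma VN_cont (D : Dat H) (Λ : Finset Idx) {s : Set ℝ} {c : ℝ → Idx → ℂ}
    (hc : ∀ k, ContinuousOn (fun t => c t k) s) : ContinuousOn (fun t => VN D Λ (c t)) s :=
  Vf_cont_on D (sm_cont D Λ _ hc) (sm_cont D Λ _ hc) (sm_cont D Λ _ hc) (sm_cont D Λ _ hc)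
    (sm_cont D Λ _ hc)

lemma sol_cont {D : Dat H} {N : ℕ} {T : ℝ} {c0 : Idx → ℂ} {c : ℝ → Idx → ℂ}
    (hS : Sol D N T c0 c) (k : Idx) : ContinuousOn (fun t => c t k) (Icc 0 T) := by
  by_cases hk : k ∈ box N
  · exact fun t ht => (hS.2.2 k hk t ht).continuousWithinAt
  · have : (fun t => c t k) = fun _ => 0 := funext fun t => hS.2.1 t k hk
    rw [this]
    exact continuousOn_const

lemma neg_int (D : Dat H) {T : ℝ} (hT : 0 < T) {N : ℕ} {c0 : Idx → ℂ} {c cl : ℝ → Idx → ℂ}
    (hS : Sol D N T c0 c)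
    (hE : ∀ k, ∀ t ∈ Icc (0 : ℝ) T,
      cl t k = c0 k + ∫ s in (0 : ℝ)..t, (inner ℂ (D.e k : H) (VI D (cl s)) : ℂ))
    (hV : IntegrableOn (fun t => VI D (cl t)) (Icc 0 T)) :
    ∫ t in Icc (0 : ℝ) T, (inner ℂ (sm D (box N) (fun k => ka k * kb k)
      (fun k => c t k - cl t k)) (VN D (box N) (c t) - VI D (cl t)) : ℂ).re ≤ 0 := by
  have hc := sol_cont hS
  have hVN := VN_cont D (box N) hc
  have hU : IntervalIntegrable (fun t => VN D (box N) (c t)) volume 0 T := by
    rw [← uIcc_of_le hT.le] at hVN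
    exact hVN.intervalIntegrable
  have hVI : IntervalIntegrable (fun t => VI D (cl t)) volume 0 T := by
    rw [intervalIntegrable_iff_integrableOn_Icc_of_le hT.le]
    exact hV
  obtain ⟨f, hf⟩ : ∃ f : Idx → ℝ → ℂ, f = fun k t =>
    (inner ℂ (D.e k : H) (VN D (box N) (c t) - VI D (cl t)) : ℂ) := ⟨_, rfl⟩
  have hi1 : ∀ k, IntervalIntegrable (fun t => (inner ℂ (D.e k : H) (VN D (box N) (c t)) : ℂ))
      volume 0 T := fun k => ⟨hU.1.const_inner _, hU.2.const_inner _⟩
  have hi2 : ∀ k, IntervalIntegrable (fun t => (inner ℂ (D.e k : H) (VI D (cl t)) : ℂ))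
      volume 0 T := fun k => ⟨hVI.1.const_inner _, hVI.2.const_inner _⟩
  have hfi : ∀ k, IntervalIntegrable (f k) volume 0 T := by
    intro k
    have := (hi1 k).sub (hi2 k)
    rw [hf]
    simpa only [inner_sub_right] using this
  have hw : ∀ k ∈ box N, ∀ t ∈ Icc (0 : ℝ) T, c t k - cl t k = ∫ s in (0:ℝ)..t, f k s := by
    intro k hk t ht
    have hsub : uIcc (0:ℝ) t ⊆ uIcc 0 T := by
      rw [uIcc_of_le ht.1, uIcc_of_le hT.le]
      exact Icc_subset_Icc_right ht.2
    have h1 := (hi1 k).mono_set hsub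
    have h2 := (hi2 k).mono_set hsub
    have h3 : ∫ s in (0:ℝ)..t, (inner ℂ (D.e k : H) (VN D (box N) (c s)) : ℂ)
        = c t k - c 0 k := by
      refine intervalIntegral.integral_eq_sub_of_hasDerivAt_of_le (f := fun t => c t k) ht.1
        ((hc k).mono (Icc_subset_Icc_right ht.2)) (fun s hs => ?_) h1
      exact (hS.2.2 k hk s ⟨hs.1.le, hs.2.le.trans ht.2⟩).hasDerivAt
        (Icc_mem_nhds hs.1 (hs.2.trans_le ht.2))
    have h4 := hE k t ht
    have h5 : ∫ s in (0:ℝ)..t, f k s = (∫ s in (0:ℝ)..t,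
        (inner ℂ (D.e k : H) (VN D (box N) (c s)) : ℂ))
          - ∫ s in (0:ℝ)..t, (inner ℂ (D.e k : H) (VI D (cl s)) : ℂ) := by
      rw [← intervalIntegral.integral_sub h1 h2]
      simp only [hf, inner_sub_right]
    rw [h5, h3, h4, hS.1]
    ring
  have hpt : ∀ t ∈ uIcc (0:ℝ) T, (inner ℂ (sm D (box N) (fun k => ka k * kb k)
      (fun k => c t k - cl t k)) (VN D (box N) (c t) - VI D (cl t)) : ℂ).re
      = ∑ k ∈ box N, -m2 k * ((starRingEnd ℂ) (∫ s in (0:ℝ)..t, f k s) * f k t).re := by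
    intro t ht
    rw [uIcc_of_le hT.le] at ht
    rw [sm, sum_inner, Complex.re_sum]
    refine Finset.sum_congr rfl fun k hk => ?_
    rw [inner_smul_left, ka_kb, hw k hk t ht, hf, map_mul, map_neg, Complex.conj_ofReal,
      ← Complex.ofReal_neg, mul_assoc, Complex.re_ofReal_mul]
  rw [integral_Icc_eq_integral_Ioc, ← intervalIntegral.integral_of_le hT.le,
    intervalIntegral.integral_congr hpt, intervalIntegral.integral_finsetSum]
  · refine Finset.sum_nonpos fun k _ => ?_
    rw [intervalIntegral.integral_const_mul]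
    have := pos (hfi k)
    nlinarith [m2_nonneg k, mul_nonneg (m2_nonneg k) this]
  · intro k _
    refine IntervalIntegrable.const_mul ?_ _
    have h1 : ContinuousOn (fun t => (starRingEnd ℂ) (∫ s in (0:ℝ)..t, f k s)) (uIcc 0 T) :=
      Complex.continuous_conj.comp_continuousOn
        (intervalIntegral.continuousOn_primitive_interval' (hfi k) left_mem_uIcc)
    have h2 := (hfi k).continuousOn_mul h1
    exact ⟨Complex.reCLM.integrable_comp h2.1, Complex.reCLM.integrable_comp h2.2⟩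

end Pool.Agent.W582.IW.Str
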